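import Mathlib

/-!
# Iterates of the prime counting function
-/

set_option autoImplicit false
set_option maxHeartbeats 1000000
open Filter Real

namespace Pool.Agent.H33.IterPi

/-- the `x`-th prime -/
noncomputable def pr (x : ℕ) : ℕ := Nat.nth Nat.Prime (x - 1)

lemma pr_pos (x : ℕ) : 0 < pr x := (Nat.prime_nth_prime (x - 1)).pos

lemma le_pi (x y : ℕ) (hx : 0 < x) (h : pr x ≤ y) : x ≤ Nat.primeCounting y := by
  unfold pr at h
  have h1 : Nat.nth Nat.Prime (x - 1) < y + 1 := by omega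
  have h2 : x - 1 < Nat.count Nat.Prime (y + 1) := by
    by_contra hn
    have h3 : y + 1 ≤ Nat.nth Nat.Prime (x - 1) :=
      (Nat.count_le_iff_le_nth Nat.infinite_setOfPred_prime).1 (not_lt.1 hn)
    omega
  rw [Nat.primeCounting, Nat.primeCounting']
  omega

lemma le_iter (k : ℕ) : ∀ x y : ℕ, 0 < x → pr^[k] x ≤ y → x ≤ Nat.primeCounting^[k] y := by
  induction k with
  | zero => intro x y _ h; simpa using h
  | succ k ih =>
    intro x y hx h
    rw [Function.iterate_succ_apply] at h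
    have h1 := ih (pr x) y (pr_pos x) h
    rw [Function.iterate_succ_apply']
    exact le_pi x _ hx h1

lemma pi_le_pred (y : ℕ) : Nat.primeCounting y ≤ y - 1 := by
  rcases Nat.eq_zero_or_pos y with h | h
  · subst h; simp
  · have h1 : Nat.primeCounting y = ((Finset.range (y + 1)).filter Nat.Prime).card := by
      rw [Nat.primeCounting, Nat.primeCounting', Nat.count_eq_card_filter_range]
    rw [h1]
    have h2 : (Finset.range (y + 1)).filter Nat.Prime ⊆ Finset.Ioc 1 y := by
      intro p hp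
      rw [Finset.mem_filter, Finset.mem_range] at hp
      rw [Finset.mem_Ioc]
      exact ⟨hp.2.one_lt, by omega⟩
    calc _ ≤ (Finset.Ioc 1 y).card := Finset.card_le_card h2
      _ = y - 1 := by simp

lemma pi_le (y : ℕ) : Nat.primeCounting y ≤ y := (pi_le_pred y).trans (Nat.sub_le _ _)

lemma iter_le (k y : ℕ) : Nat.primeCounting^[k] y ≤ y - k := by
  induction k with
  | zero => simp
  | succ k ih =>
    rw [Function.iterate_succ_apply']
    have := pi_le_pred (Nat.primeCounting^[k] y)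
    omega

lemma iter_anti (y : ℕ) {k m : ℕ} (h : k ≤ m) : Nat.primeCounting^[m] y ≤ Nat.primeCounting^[k] y := by
  obtain ⟨j, rfl⟩ := Nat.exists_eq_add_of_le h
  rw [Nat.add_comm, Function.iterate_add_apply]
  exact (iter_le j _).trans (Nat.sub_le _ _)

lemma iter_mono (k : ℕ) {y z : ℕ} (h : y ≤ z) : Nat.primeCounting^[k] y ≤ Nat.primeCounting^[k] z :=
  Nat.monotone_primeCounting.iterate k h

/-- Chebyshev's upper bound in logarithmic form -/
lemma cheb : ∃ C τ : ℝ, 1 ≤ C ∧ 1 ≤ τ ∧ ∀ y : ℕ, τ < Real.log y → 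
    Real.log (Nat.primeCounting y) ≤ Real.log y - Real.log (Real.log y) + C := by
  have h := Chebyshev.eventually_primeCounting_le (ε := 1) one_pos
  rw [Filter.eventually_atTop] at h
  obtain ⟨x0, h⟩ := h
  refine ⟨max 1 (Real.log (Real.log 4 + 1)), max 1 (Real.log (max x0 1)), le_max_left _ _, le_max_left _ _, ?_⟩
  intro y hy
  have hy1 : 1 < Real.log y := lt_of_le_of_lt (le_max_left _ _) hy
  have hy0 : (0 : ℝ) < y := by
    by_contra hn
    have : (y : ℝ) = 0 := le_antisymm (not_lt.1 hn) (Nat.cast_nonneg y)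
    rw [this, Real.log_zero] at hy1
    linarith
  have hy2 : max x0 1 < y := by
    have := lt_of_le_of_lt (le_max_right _ _) hy
    exact (Real.log_lt_log_iff (by positivity) hy0).1 this
  have h1 := h (y : ℝ) ((le_max_left _ _).trans hy2.le)
  rw [Nat.floor_natCast] at h1
  have hp2 : 2 ≤ y := by
    have : (1 : ℝ) < y := lt_of_le_of_lt (le_max_right _ _) hy2
    exact_mod_cast this
  have hp : (0 : ℝ) < (Nat.primeCounting y : ℝ) := by
    have : 0 < Nat.primeCounting y := by
      rw [Nat.pos_iff_ne_zero, Ne, Nat.primeCounting_eq_zero_iff]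
      omega
    exact_mod_cast this
  have h4 : (0 : ℝ) < Real.log 4 + 1 := by
    have := Real.log_pos (show (1 : ℝ) < 4 by norm_num)
    linarith
  have h2 := Real.log_le_log hp h1
  rw [mul_div_assoc, Real.log_mul h4.ne' (by positivity), Real.log_div hy0.ne' (by linarith)] at h2
  have := le_max_right 1 (Real.log (Real.log 4 + 1))
  linarith

/-- as long as the iterates stay above `exp τ`, each step reduces the logarithm by `log τ - C` -/
lemma descent (C τ₀ τ : ℝ) (hc : ∀ y : ℕ, τ₀ < Real.log y →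
    Real.log (Nat.primeCounting y) ≤ Real.log y - Real.log (Real.log y) + C)
    (hτ₀ : τ₀ ≤ τ) (hτ : 0 < τ) (Y : ℕ) (k : ℕ) (h : τ < Real.log (Nat.primeCounting^[k] Y : ℕ)) :
    Real.log (Nat.primeCounting^[k] Y : ℕ) ≤ Real.log Y - k * (Real.log τ - C) := by
  induction k with
  | zero => simp
  | succ k ih =>
    have hle : Nat.primeCounting^[k + 1] Y ≤ Nat.primeCounting^[k] Y := iter_anti Y (Nat.le_succ k)
    have hpos : (0 : ℝ) < (Nat.primeCounting^[k + 1] Y : ℕ) := by
      rcases Nat.eq_zero_or_pos (Nat.primeCounting^[k + 1] Y) with h0 | h0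
      · rw [h0] at h
        simp at h
        linarith
      · exact_mod_cast h0
    have hlog : Real.log (Nat.primeCounting^[k + 1] Y : ℕ) ≤ Real.log (Nat.primeCounting^[k] Y : ℕ) :=
      Real.log_le_log hpos (by exact_mod_cast hle)
    have hk : τ < Real.log (Nat.primeCounting^[k] Y : ℕ) := lt_of_lt_of_le h hlog
    have h1 := ih hk
    have h2 := hc _ (lt_of_le_of_lt hτ₀ hk)
    have h3 : Real.log τ ≤ Real.log (Real.log (Nat.primeCounting^[k] Y : ℕ)) :=
      Real.log_le_log hτ hk.le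
    rw [← Function.iterate_succ_apply' Nat.primeCounting k Y] at h2
    push_cast
    linarith

lemma log_le_of_lt {τ : ℝ} {y : ℕ} (h : ¬ τ < Real.log y) : Real.log y ≤ τ := not_lt.1 h

/-- **Extinction.** If `log Y ≤ (1 - η) k log k` and `k` is large then the `k`-th iterate at `Y` is zero. -/
lemma extinct (η : ℝ) (hη : 0 < η) (hη1 : η ≤ 1) : ∃ k₀ : ℕ, ∀ k : ℕ, k₀ ≤ k → ∀ Y : ℕ,
    Real.log Y ≤ (1 - η) * (k * Real.log k) → Nat.primeCounting^[k] Y = 0 := by
  obtain ⟨C, τ₀, hC, hτ₀, hc⟩ := cheb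
  obtain ⟨θ, hθ⟩ : ∃ θ : ℝ, θ = η / 7 := ⟨_, rfl⟩
  have hθ0 : 0 < θ := by rw [hθ]; positivity
  have hθ1 : θ ≤ 1 / 7 := by rw [hθ]; linarith
  obtain ⟨τ₂, hτ₂⟩ : ∃ τ₂ : ℝ, τ₂ = max τ₀ (Real.exp (C + 1)) := ⟨_, rfl⟩
  have hτ₂0 : 0 < τ₂ := by rw [hτ₂]; exact lt_max_of_lt_right (Real.exp_pos _)
  have hτ₂1 : C + 1 ≤ Real.log τ₂ := by
    rw [Real.le_log_iff_exp_le hτ₂0, hτ₂]
    exact le_max_right _ _
  have hτ₂2 : τ₀ ≤ τ₂ := by rw [hτ₂]; exact le_max_left _ _
  obtain ⟨D, hD⟩ : ∃ D : ℕ, D = ⌊Real.exp τ₂⌋₊ + 1 := ⟨_, rfl⟩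
  -- the conditions on `l`
  have e1 : ∀ᶠ l : ℝ in atTop, τ₀ ≤ θ * l := by
    filter_upwards [eventually_ge_atTop (τ₀ / θ)] with l hl
    rw [div_le_iff₀ hθ0] at hl
    linarith
  have e2 : ∀ᶠ l : ℝ in atTop, (1 - θ) * Real.log l ≤ Real.log (θ * l) - C := by
    have h1 := Real.tendsto_log_atTop.eventually_ge_atTop ((C - Real.log θ) / θ)
    filter_upwards [h1, eventually_gt_atTop 0] with l hl hl0
    rw [div_le_iff₀ hθ0] at hl
    rw [Real.log_mul hθ0.ne' hl0.ne']
    linarith
  have e3 : ∀ᶠ l : ℝ in atTop, (1 / 4) * Real.log l ≤ Real.log (Real.sqrt l) - C := by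
    have h1 := Real.tendsto_log_atTop.eventually_ge_atTop (4 * C)
    filter_upwards [h1, eventually_gt_atTop 0] with l hl hl0
    rw [Real.log_sqrt hl0.le]
    linarith
  have e4 : ∀ᶠ l : ℝ in atTop, τ₀ ≤ Real.sqrt l := Real.tendsto_sqrt_atTop.eventually_ge_atTop τ₀
  have e5 : ∀ᶠ l : ℝ in atTop, 3 + Real.sqrt l + D ≤ θ * (l / Real.log l) := by
    have h1 : ∀ᶠ l : ℝ in atTop, Real.log l ≤ (θ / 2) * Real.sqrt l := by
      have := (isLittleO_log_rpow_atTop (show (0 : ℝ) < 1 / 2 by norm_num)).bound (show (0 : ℝ) < θ / 2 by positivity)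
      filter_upwards [this, eventually_ge_atTop 1] with l hl hl1
      rw [Real.norm_of_nonneg (Real.log_nonneg hl1), Real.norm_of_nonneg (by positivity),
        ← Real.sqrt_eq_rpow] at hl
      exact hl
    have h2 : ∀ᶠ l : ℝ in atTop, 3 + (D : ℝ) ≤ Real.sqrt l := Real.tendsto_sqrt_atTop.eventually_ge_atTop _
    filter_upwards [h1, h2, eventually_gt_atTop 1] with l hl hl2 hl1
    have hlog : 0 < Real.log l := Real.log_pos hl1
    have hs : 0 < Real.sqrt l := Real.sqrt_pos.2 (by linarith)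
    rw [← mul_div_assoc, le_div_iff₀ hlog]
    have h5 : (3 + Real.sqrt l + D) * Real.log l ≤ (2 * Real.sqrt l) * ((θ / 2) * Real.sqrt l) := by
      apply mul_le_mul (by linarith) hl hlog.le (by positivity)
    have h6 : (2 * Real.sqrt l) * ((θ / 2) * Real.sqrt l) = θ * (Real.sqrt l * Real.sqrt l) := by ring
    rw [h6, Real.mul_self_sqrt (by linarith)] at h5
    exact h5
  obtain ⟨l1, hl1⟩ := (e1.and (e2.and (e3.and (e4.and (e5.and (eventually_ge_atTop (Real.exp 1))))))).exists_forall_of_atTop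
  -- the conditions on `k`
  obtain ⟨k₂, hk₂⟩ : ∃ k₂ : ℕ, Real.exp l1 + 3 ≤ k₂ := exists_nat_ge _
  obtain ⟨k₃, hk₃⟩ : ∃ k₃ : ℕ, Real.exp (1 / (1 - η)) + 3 ≤ k₃ := exists_nat_ge _
  refine ⟨k₂ + k₃, ?_⟩
  intro k hk Y hY
  have hkr2 : (k₂ : ℝ) ≤ k := by exact_mod_cast (by omega : k₂ ≤ k)
  have hk3 : (3 : ℝ) ≤ k := by
    have := Real.exp_pos l1
    linarith
  obtain ⟨l, hl⟩ : ∃ l : ℝ, l = Real.log Y := ⟨_, rfl⟩
  rcases Nat.eq_zero_or_pos Y with hY0 | hY0
  · subst hY0
    have := iter_le k 0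
    omega
  have hYr : (0 : ℝ) < Y := by exact_mod_cast hY0
  rcases lt_or_ge l l1 with hll | hll
  · -- small `Y`
    have h1 : (Y : ℝ) ≤ Real.exp l1 := by
      rw [← Real.exp_log hYr, ← hl]
      exact Real.exp_le_exp.2 hll.le
    have h2 : (Y : ℝ) ≤ k := by linarith
    have h3 : Y ≤ k := by exact_mod_cast h2
    have := iter_le k Y
    omega
  · obtain ⟨g1, g2, g3, g4, g5, g6⟩ := hl1 l hll
    have hl0 : 0 < l := lt_of_lt_of_le (Real.exp_pos 1) g6
    have hlog1 : 1 ≤ Real.log l := by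
      rw [Real.le_log_iff_exp_le hl0]; exact g6
    have hlog : 0 < Real.log l := by linarith
    have hθl : 0 < θ * l := by positivity
    have h1θ : 0 < 1 - θ := by linarith
    -- phase 1
    obtain ⟨j1, hj1⟩ : ∃ j1 : ℕ, j1 = ⌊l / ((1 - θ) * Real.log l)⌋₊ + 1 := ⟨_, rfl⟩
    have p1 : Real.log (Nat.primeCounting^[j1] Y : ℕ) ≤ θ * l := by
      by_contra hn
      have h1 := descent C τ₀ (θ * l) hc g1 hθl Y j1 (not_le.1 hn)
      have h2 : l / ((1 - θ) * Real.log l) < j1 := by
        rw [hj1]; push_cast; exact Nat.lt_floor_add_one _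
      rw [div_lt_iff₀ (by positivity)] at h2
      have h3 : (j1 : ℝ) * ((1 - θ) * Real.log l) ≤ j1 * (Real.log (θ * l) - C) :=
        mul_le_mul_of_nonneg_left g2 (Nat.cast_nonneg _)
      rw [← hl] at h1
      have := not_le.1 hn
      linarith
    -- phase 2
    obtain ⟨Y1, hY1⟩ : ∃ Y1 : ℕ, Y1 = Nat.primeCounting^[j1] Y := ⟨_, rfl⟩
    rw [← hY1] at p1
    obtain ⟨j2, hj2⟩ : ∃ j2 : ℕ, j2 = ⌊4 * θ * l / Real.log l⌋₊ + 1 := ⟨_, rfl⟩
    have hsl : 0 < Real.sqrt l := Real.sqrt_pos.2 hl0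
    have p2 : Real.log (Nat.primeCounting^[j2] Y1 : ℕ) ≤ Real.sqrt l := by
      by_contra hn
      have h1 := descent C τ₀ (Real.sqrt l) hc g4 hsl Y1 j2 (not_le.1 hn)
      have h2 : 4 * θ * l / Real.log l < j2 := by
        rw [hj2]; push_cast; exact Nat.lt_floor_add_one _
      rw [div_lt_iff₀ (by positivity)] at h2
      have h3 : (j2 : ℝ) * ((1 / 4) * Real.log l) ≤ j2 * (Real.log (Real.sqrt l) - C) :=
        mul_le_mul_of_nonneg_left g3 (Nat.cast_nonneg _)
      have := not_le.1 hn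
      linarith
    -- phase 3
    obtain ⟨Y2, hY2⟩ : ∃ Y2 : ℕ, Y2 = Nat.primeCounting^[j2] Y1 := ⟨_, rfl⟩
    rw [← hY2] at p2
    obtain ⟨j3, hj3⟩ : ∃ j3 : ℕ, j3 = ⌊Real.sqrt l⌋₊ + 1 := ⟨_, rfl⟩
    have p3 : Real.log (Nat.primeCounting^[j3] Y2 : ℕ) ≤ τ₂ := by
      by_contra hn
      have h1 := descent C τ₀ τ₂ hc hτ₂2 hτ₂0 Y2 j3 (not_le.1 hn)
      have h2 : Real.sqrt l < j3 := by
        rw [hj3]; push_cast; exact Nat.lt_floor_add_one _
      have h3 : (j3 : ℝ) * 1 ≤ j3 * (Real.log τ₂ - C) :=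
        mul_le_mul_of_nonneg_left (by linarith) (Nat.cast_nonneg _)
      have := not_le.1 hn
      linarith
    -- phase 4
    obtain ⟨Y3, hY3⟩ : ∃ Y3 : ℕ, Y3 = Nat.primeCounting^[j3] Y2 := ⟨_, rfl⟩
    rw [← hY3] at p3
    have p4 : Nat.primeCounting^[D] Y3 = 0 := by
      have h1 := iter_le D Y3
      have h2 : Y3 ≤ D := by
        rcases Nat.eq_zero_or_pos Y3 with h0 | h0
        · omega
        · have h3 : (0 : ℝ) < Y3 := by exact_mod_cast h0
          have h4 : (Y3 : ℝ) ≤ Real.exp τ₂ := by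
            rw [← Real.exp_log h3]
            exact Real.exp_le_exp.2 p3
          have h5 := Nat.le_floor h4
          omega
      omega
    have htot : Nat.primeCounting^[D + (j3 + (j2 + j1))] Y = 0 := by
      rw [Function.iterate_add_apply, Function.iterate_add_apply, Function.iterate_add_apply,
        ← hY1, ← hY2, ← hY3, p4]
    -- the number of steps
    have hsteps : (D : ℝ) + (j3 + (j2 + j1)) ≤ (1 + 7 * θ) * (l / Real.log l) := by
      have b1 : (j1 : ℝ) ≤ l / ((1 - θ) * Real.log l) + 1 := by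
        rw [hj1]; push_cast
        have := Nat.floor_le (show 0 ≤ l / ((1 - θ) * Real.log l) by positivity)
        linarith
      have b2 : (j2 : ℝ) ≤ 4 * θ * l / Real.log l + 1 := by
        rw [hj2]; push_cast
        have := Nat.floor_le (show 0 ≤ 4 * θ * l / Real.log l by positivity)
        linarith
      have b3 : (j3 : ℝ) ≤ Real.sqrt l + 1 := by
        rw [hj3]; push_cast
        have := Nat.floor_le hsl.le
        linarith
      have b4 : l / ((1 - θ) * Real.log l) ≤ (1 + 2 * θ) * (l / Real.log l) := by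
        rw [div_le_iff₀ (by positivity)]
        have : (1 + 2 * θ) * (l / Real.log l) * ((1 - θ) * Real.log l) = l * ((1 + 2 * θ) * (1 - θ)) := by
          field_simp
        rw [this]
        nlinarith
      have b5 : 4 * θ * l / Real.log l = 4 * θ * (l / Real.log l) := by ring
      rw [b5] at b2
      linarith
    have hkr : (1 + 7 * θ) * (l / Real.log l) ≤ k := by
      rcases eq_or_lt_of_le hη1 with h1 | h1
      · exfalso
        rw [h1] at hY
        rw [← hl] at hY
        linarith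
      obtain ⟨m, hm⟩ : ∃ m : ℝ, m = (1 - η) * (k * Real.log k) := ⟨_, rfl⟩
      have hlm : l ≤ m := by rw [hl, hm]; exact hY
      have hlogk : 0 < Real.log k := Real.log_pos (by linarith)
      have hm0 : 0 < m := lt_of_lt_of_le hl0 hlm
      have h2 := Real.log_div_self_antitoneOn (show l ∈ {x : ℝ | Real.exp 1 ≤ x} from g6)
        (show m ∈ {x : ℝ | Real.exp 1 ≤ x} from g6.trans hlm) hlm
      simp only at h2
      have hkr3 : (k₃ : ℝ) ≤ k := by exact_mod_cast (by omega : k₃ ≤ k)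
      have h1η : 0 < 1 - η := by linarith
      have h3 : 1 / (1 - η) ≤ Real.log k := by
        rw [Real.le_log_iff_exp_le (by linarith)]
        linarith
      have hkm : (k : ℝ) ≤ m := by
        rw [div_le_iff₀ h1η] at h3
        have hk0 : (0 : ℝ) ≤ k := Nat.cast_nonneg k
        calc (k : ℝ) = k * 1 := (mul_one _).symm
          _ ≤ k * (Real.log k * (1 - η)) := mul_le_mul_of_nonneg_left h3 hk0
          _ = m := by rw [hm]; ring
      have h4 : Real.log k ≤ Real.log m := Real.log_le_log (by linarith) hkm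
      have hlogm : 0 < Real.log m := by linarith
      have h5 : l / Real.log l ≤ m / Real.log m := by
        rw [div_le_div_iff₀ hlog hlogm]
        rw [div_le_div_iff₀ hm0 hl0] at h2
        linarith
      have h6 : m / Real.log m ≤ (1 - η) * k := by
        rw [div_le_iff₀ hlogm]
        calc m = (1 - η) * k * Real.log k := by rw [hm]; ring
          _ ≤ (1 - η) * k * Real.log m := by gcongr
      have h7 : (1 + 7 * θ) * (l / Real.log l) ≤ (1 + η) * ((1 - η) * k) := by
        have : 1 + 7 * θ = 1 + η := by rw [hθ]; ring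
        rw [this]
        exact mul_le_mul_of_nonneg_left (h5.trans h6) (by linarith)
      have h8 : (1 + η) * ((1 - η) * k) ≤ k := by
        have : (1 + η) * ((1 - η) * k) = k - η ^ 2 * k := by ring
        rw [this]
        have : 0 ≤ η ^ 2 * (k : ℝ) := by positivity
        linarith
      linarith
    have : D + (j3 + (j2 + j1)) ≤ k := by exact_mod_cast hsteps.trans hkr
    have h9 := iter_anti Y this
    omega

end Pool.Agent.H33.IterPi
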