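import Pool.Agent.H33.IterPi

/-!
# Products of two iterates of the prime counting function
-/

set_option autoImplicit false
set_option maxHeartbeats 1000000
open Filter Real

namespace Pool.Agent.H33.IterPi

/-- `b ≤ a`: below `exp ((1 - ε) (a + b) log (a + b))` the product of the two iterates is small. -/
lemma two_iter (ε : ℝ) (hε : 0 < ε) (hε1 : ε ≤ 1 / 2) : ∃ s₀ : ℕ, ∀ a b : ℕ, b ≤ a → s₀ ≤ a + b → ∀ Y : ℕ,
    Real.log Y ≤ (1 - ε) * (((a + b : ℕ) : ℝ) * Real.log ((a + b : ℕ) : ℝ)) →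
    Nat.primeCounting^[a + 1] Y = 0 ∨
      ((1 / 4) * (((a + b : ℕ) : ℝ)) ≤ Real.log Y ∧ Real.log (Nat.primeCounting^[a + 1] Y : ℕ) + Real.log (Nat.primeCounting^[b + 1] Y : ℕ) ≤
        (1 - ε / 64) * Real.log Y) := by
  obtain ⟨C, τ₀, hC, hτ₀, hc⟩ := cheb
  obtain ⟨η, hη⟩ : ∃ η : ℝ, η = ε / 8 := ⟨_, rfl⟩
  have hη0 : 0 < η := by rw [hη]; positivity
  have hη1 : η ≤ 1 / 16 := by rw [hη]; linarith
  obtain ⟨θ, hθ⟩ : ∃ θ : ℝ, θ = ε / 64 := ⟨_, rfl⟩
  have hθ0 : 0 < θ := by rw [hθ]; positivity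
  have hθ1 : θ ≤ 1 / 128 := by rw [hθ]; linarith
  obtain ⟨k₁, hk₁⟩ := extinct (ε / 2) (by positivity) (by linarith)
  obtain ⟨k₂, hk₂⟩ := extinct (1 / 2) (by norm_num) (by norm_num)
  have e1 : ∀ᶠ l : ℝ in atTop, τ₀ ≤ θ * l := by
    filter_upwards [eventually_ge_atTop (τ₀ / θ)] with l hl
    rw [div_le_iff₀ hθ0] at hl
    linarith
  have e2 : ∀ᶠ l : ℝ in atTop, (1 - θ) * Real.log l ≤ Real.log (θ * l) - C := by
    have h1 := Real.tendsto_log_atTop.eventually_ge_atTop ((C - Real.log θ) / θ)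
    filter_upwards [h1, eventually_gt_atTop 0] with l hl hl0
    rw [div_le_iff₀ hθ0] at hl
    rw [Real.log_mul hθ0.ne' hl0.ne']
    linarith
  obtain ⟨l1, hl1⟩ := (e1.and (e2.and (eventually_ge_atTop (1 : ℝ)))).exists_forall_of_atTop
  obtain ⟨k₃, hk₃⟩ : ∃ k₃ : ℕ, 2 * l1 + Real.exp 4 + 1 ≤ k₃ := exists_nat_ge _
  refine ⟨2 * (k₁ + k₂ + k₃ + 2), ?_⟩
  intro a b hba hs Y hY
  have ha : k₁ + k₂ + k₃ + 2 ≤ a := by omega
  obtain ⟨s, hsd⟩ : ∃ s : ℕ, s = a + b := ⟨_, rfl⟩
  rw [← hsd] at hY ⊢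
  have har : ((k₃ : ℕ) : ℝ) ≤ a := by exact_mod_cast (by omega : k₃ ≤ a)
  have hexp4 : Real.exp 4 ≤ a := by
    have h4 : 0 ≤ Real.exp 4 := (Real.exp_pos 4).le
    by_cases hl : 0 ≤ l1
    · linarith
    · have := hl1 1 (by linarith)
      have h5 : τ₀ ≤ θ * 1 := this.1
      linarith
  have ha0 : (0 : ℝ) < a := lt_of_lt_of_le (Real.exp_pos 4) hexp4
  have hloga : 4 ≤ Real.log a := by rw [Real.le_log_iff_exp_le ha0]; exact hexp4
  have hsr : (s : ℝ) = a + b := by rw [hsd]; push_cast; ring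
  have hbr : (b : ℝ) ≤ a := by exact_mod_cast hba
  have hb0 : (0 : ℝ) ≤ b := Nat.cast_nonneg b
  have hs0 : (0 : ℝ) < s := by rw [hsr]; linarith
  have hlogs : Real.log a ≤ Real.log s := Real.log_le_log ha0 (by rw [hsr]; linarith)
  obtain ⟨l, hl⟩ : ∃ l : ℝ, l = Real.log Y := ⟨_, rfl⟩
  have hloga1 : Real.log a ≤ Real.log ((a + 1 : ℕ) : ℝ) := by
    apply Real.log_le_log ha0
    push_cast; linarith
  rcases lt_or_ge (b : ℝ) (η * a) with hb | hb
  · -- `b` is small: there are no `a`-primes at all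
    left
    apply hk₁ (a + 1) (by omega)
    refine hY.trans ?_
    have h1 : Real.log s ≤ Real.log a + η := by
      have h2 : (s : ℝ) ≤ (1 + η) * a := by rw [hsr]; linarith
      have h3 := Real.log_le_log hs0 h2
      rw [Real.log_mul (by positivity) ha0.ne'] at h3
      have h4 : Real.log (1 + η) ≤ η := by
        have := Real.log_le_sub_one_of_pos (show 0 < 1 + η by positivity)
        linarith
      linarith
    have h2 : Real.log s ≤ (1 + η) * Real.log a := by
      have : η * 1 ≤ η * Real.log a := mul_le_mul_of_nonneg_left (by linarith) hη0.le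
      linarith
    have h3 : (s : ℝ) ≤ (1 + η) * a := by rw [hsr]; linarith
    have h4 : (s : ℝ) * Real.log s ≤ ((1 + η) * a) * ((1 + η) * Real.log a) := by
      apply mul_le_mul h3 h2 (by linarith) (by positivity)
    have h5 : (1 - ε) * ((s : ℝ) * Real.log s) ≤ (1 - ε) * (((1 + η) * a) * ((1 + η) * Real.log a)) :=
      mul_le_mul_of_nonneg_left h4 (by linarith)
    refine h5.trans ?_
    have h6 : (1 - ε) * ((1 + η) * (1 + η)) ≤ 1 - ε / 2 := by
      rw [hη]
      nlinarith [mul_pos hε hε]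
    have h7 : (a : ℝ) * Real.log a ≤ ((a + 1 : ℕ) : ℝ) * Real.log ((a + 1 : ℕ) : ℝ) := by
      apply mul_le_mul _ hloga1 (by linarith) (by positivity)
      push_cast; linarith
    calc (1 - ε) * (((1 + η) * a) * ((1 + η) * Real.log a)) = ((1 - ε) * ((1 + η) * (1 + η))) * (a * Real.log a) := by ring
      _ ≤ (1 - ε / 2) * (a * Real.log a) := mul_le_mul_of_nonneg_right h6 (by positivity)
      _ ≤ (1 - ε / 2) * (((a + 1 : ℕ) : ℝ) * Real.log ((a + 1 : ℕ) : ℝ)) :=
        mul_le_mul_of_nonneg_left h7 (by linarith)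
  · rcases le_or_gt l ((1 - 1 / 2) * (((a + 1 : ℕ) : ℝ) * Real.log ((a + 1 : ℕ) : ℝ))) with hsm | hlarge
    · left
      apply hk₂ (a + 1) (by omega)
      rw [← hl]; exact hsm
    · right
      rw [← hl] at hY ⊢
      have hl2 : 2 * (a : ℝ) ≤ l := by
        have h1 : (a : ℝ) * 4 ≤ ((a + 1 : ℕ) : ℝ) * Real.log ((a + 1 : ℕ) : ℝ) := by
          apply mul_le_mul _ (by linarith) (by norm_num) (by positivity)
          push_cast; linarith
        linarith
      have hls : (s : ℝ) ≤ l := by rw [hsr]; linarith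
      refine ⟨by linarith, ?_⟩
      have hl11 : l1 ≤ l := by linarith [Real.exp_pos 4]
      obtain ⟨g1, g2, g3⟩ := hl1 l hl11
      have hl0 : 0 < l := by linarith
      have hlogl : Real.log s ≤ Real.log l := Real.log_le_log hs0 hls
      have hθl : 0 < θ * l := by positivity
      have hu : (1 - θ) * Real.log s ≤ Real.log (θ * l) - C := by
        refine le_trans ?_ g2
        exact mul_le_mul_of_nonneg_left hlogl (by linarith)
      have hslog : l * (1 + ε) ≤ s * Real.log s := by
        have h1 : l * (1 + ε) ≤ (1 - ε) * ((s : ℝ) * Real.log s) * (1 + ε) :=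
          mul_le_mul_of_nonneg_right hY (by linarith)
        have h2 : (1 - ε) * ((s : ℝ) * Real.log s) * (1 + ε) = (1 - ε ^ 2) * ((s : ℝ) * Real.log s) := by ring
        rw [h2] at h1
        have h3 : 0 ≤ (s : ℝ) * Real.log s := mul_nonneg hs0.le (by linarith)
        nlinarith [mul_nonneg (sq_nonneg ε) h3]
      have hlogs0 : 0 ≤ Real.log s := by linarith
      have hbs : (η / 2) * s ≤ b := by
        rw [hsr]
        have : η * (a + b) ≤ b + η * b := by linarith
        have h2 : η * b ≤ 1 * b := mul_le_mul_of_nonneg_right (by linarith) hb0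
        linarith
      have hAB : Nat.primeCounting^[a + 1] Y ≤ Nat.primeCounting^[b + 1] Y := iter_anti Y (by omega)
      obtain ⟨A, hA⟩ : ∃ A : ℝ, A = Real.log (Nat.primeCounting^[a + 1] Y : ℕ) := ⟨_, rfl⟩
      obtain ⟨B, hB⟩ : ∃ B : ℝ, B = Real.log (Nat.primeCounting^[b + 1] Y : ℕ) := ⟨_, rfl⟩
      have dA : θ * l < A → A ≤ l - ((a + 1 : ℕ) : ℝ) * (Real.log (θ * l) - C) := by
        intro h
        rw [hA, hl]
        rw [hA] at h
        rw [hl] at h g1 hθl
        exact descent C τ₀ (θ * Real.log Y) hc g1 hθl Y (a + 1) h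
      have dB : θ * l < B → B ≤ l - ((b + 1 : ℕ) : ℝ) * (Real.log (θ * l) - C) := by
        intro h
        rw [hB, hl]
        rw [hB] at h
        rw [hl] at h g1 hθl
        exact descent C τ₀ (θ * Real.log Y) hc g1 hθl Y (b + 1) h
      rw [← hA, ← hB]
      have hu0 : 0 ≤ (1 - θ) * Real.log s := mul_nonneg (by linarith) hlogs0
      have mA : (a : ℝ) * ((1 - θ) * Real.log s) ≤ ((a + 1 : ℕ) : ℝ) * (Real.log (θ * l) - C) := by
        apply mul_le_mul _ hu hu0 (by positivity)
        push_cast; linarith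
      have mB : (b : ℝ) * ((1 - θ) * Real.log s) ≤ ((b + 1 : ℕ) : ℝ) * (Real.log (θ * l) - C) := by
        apply mul_le_mul _ hu hu0 (by positivity)
        push_cast; linarith
      have hBb : θ * l < B → B ≤ (1 - η / 4) * l := by
        intro h
        have h1 := dB h
        have h2 : (η / 2) * s * ((1 - θ) * Real.log s) ≤ (b : ℝ) * ((1 - θ) * Real.log s) :=
          mul_le_mul_of_nonneg_right hbs hu0
        have h3 : (η / 2) * s * ((1 - θ) * Real.log s) = (η / 2) * (1 - θ) * (s * Real.log s) := by ring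
        have h4 : (η / 2) * (1 - θ) * (l * (1 + ε)) ≤ (η / 2) * (1 - θ) * (s * Real.log s) :=
          mul_le_mul_of_nonneg_left hslog (by apply mul_nonneg (by positivity) (by linarith))
        have h5 : η / 4 * l ≤ (η / 2) * (1 - θ) * (l * (1 + ε)) := by
          have h6 : (1 : ℝ) / 2 ≤ (1 - θ) * (1 + ε) := by nlinarith
          have h7 : η / 2 * l * (1 / 2) ≤ η / 2 * l * ((1 - θ) * (1 + ε)) :=
            mul_le_mul_of_nonneg_left h6 (by positivity)
          linarith
        linarith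
      rcases lt_or_ge (θ * l) A with hAl | hAl
      · -- both are large
        have hBl : θ * l < B := by
          refine lt_of_lt_of_le hAl ?_
          rw [hA, hB]
          have hpos : (0 : ℝ) < (Nat.primeCounting^[a + 1] Y : ℕ) := by
            rcases Nat.eq_zero_or_pos (Nat.primeCounting^[a + 1] Y) with h0 | h0
            · rw [hA, h0] at hAl
              simp at hAl
              linarith
            · exact_mod_cast h0
          exact Real.log_le_log hpos (by exact_mod_cast hAB)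
        have h1 := dA hAl
        have h2 := dB hBl
        have h3 : (a : ℝ) * ((1 - θ) * Real.log s) + (b : ℝ) * ((1 - θ) * Real.log s) = (1 - θ) * (s * Real.log s) := by
          rw [hsr]; ring
        have h4 : (1 - θ) * (l * (1 + ε)) ≤ (1 - θ) * (s * Real.log s) :=
          mul_le_mul_of_nonneg_left hslog (by linarith)
        have h5 : (1 + ε / 64) * l ≤ (1 - θ) * (l * (1 + ε)) := by
          rw [hθ]
          have : (1 + ε / 64) ≤ (1 - ε / 64) * (1 + ε) := by nlinarith
          calc (1 + ε / 64) * l ≤ ((1 - ε / 64) * (1 + ε)) * l := mul_le_mul_of_nonneg_right this hl0.le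
            _ = _ := by ring
        linarith
      · rcases lt_or_ge (θ * l) B with hBl | hBl
        · have h1 := hBb hBl
          have h2 : η / 4 = 2 * θ := by rw [hη, hθ]; ring
          rw [h2] at h1
          have h3 : θ * l = ε / 64 * l := by rw [hθ]
          linarith
        · have h3 : θ * l ≤ 1 / 128 * l := mul_le_mul_of_nonneg_right hθ1 hl0.le
          have h4 : ε / 64 * l ≤ 1 / 128 * l := by rw [← hθ]; exact h3
          linarith

end Pool.Agent.H33.IterPi
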